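import Pool.Agent.R681.DS.Up

/-!
# Interval splitting: infinite strategies are far from optimal for almost all lengths

A strategy is given by its successive cut points `c 0, c 1, …` (`IsStrategy n c` for length `n`,
`IsInf c` for an infinite strategy); `discS n c` is the discrepancy `disc_n` of its first `n`
partitions and `disc n` the optimum over strategies of length `n`.
-/

namespace Pool.Agent.Results.MP_eb524a_co.AlmostAllLengths

open Pool.Agent.R681.DS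

/-- (1) `disc(n) = 2 ^ (1 - 1/⌈n/2⌉)` for all `n ≥ 1`.
(2) Every strategy of length `N ≥ 1` satisfies `∏_{N/2 < n ≤ N} disc_n(S) ≥ 2 ^ (⌈N/2⌉ - 1)`.
(3) Every infinite strategy satisfies
`∑_{N/2 < n ≤ N} (disc_n(S) - disc(n)) ≥ log 2 (4 log 2 - 2) - 13/(N+1)` for all `N ≥ 1`.
(4) For every `ε > 0`, all large `N` and all infinite strategies there is `n` in `(N/2, N]` with
`n (disc_n(S) - disc(n)) ≥ 4 log 2 - 2 - ε`.
(5) For every `0 < κ ≤ 1/8`, all large `N` and all infinite strategies, at most `16 κ N` of the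
integers `1 ≤ n ≤ N` satisfy `n (disc_n(S) - disc(n)) < κ`. -/
theorem result :
    (∀ n : ℕ, 1 ≤ n → disc n = (2:ℝ) ^ (1 - 1 / (⌈(n:ℝ) / 2⌉₊ : ℝ))) ∧
    (∀ N : ℕ, 1 ≤ N → ∀ c : ℕ → ℝ, IsStrategy N c →
      (2:ℝ) ^ (N - (N / 2 + 1)) ≤ ∏ n ∈ Finset.Ioc (N / 2) N, discS n c) ∧
    (∀ N : ℕ, 1 ≤ N → ∀ c : ℕ → ℝ, IsInf c →
      Real.log 2 * (4 * Real.log 2 - 2) - 13 / ((N:ℝ) + 1) ≤
        ∑ n ∈ Finset.Ioc (N / 2) N, (discS n c - disc n)) ∧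
    (∀ ε : ℝ, 0 < ε → ∃ N₀ : ℕ, ∀ N ≥ N₀, ∀ c : ℕ → ℝ, IsInf c →
      ∃ n ∈ Finset.Ioc (N / 2) N, 4 * Real.log 2 - 2 - ε ≤ n * (discS n c - disc n)) ∧
    (∀ κ : ℝ, 0 < κ → κ ≤ 1 / 8 → ∃ N₀ : ℕ, ∀ N ≥ N₀, ∀ c : ℕ → ℝ, IsInf c →
      (((Finset.Ioc 0 N).filter fun n : ℕ => (n:ℝ) * (discS n c - disc n) < κ).card : ℝ) ≤
        16 * κ * N) :=
  ⟨fun n hn => le_antisymm (disc_le_ub n hn) (lower_half n hn).2,
    fun _ hN _ hc => prod_ge hc hN,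
    fun N hN _ hc => mean_ge disc_le_ub hc N hN,
    fun _ hε => exists_good disc_le_ub hε,
    fun _ hκ hκ2 => density disc_le_ub hκ hκ2⟩

end Pool.Agent.Results.MP_eb524a_co.AlmostAllLengths
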