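import Mathlib

/-!
# Infinite interval splitting strategies of the optimal order

A partition of `[0,1]` into intervals is given by the list of the lengths of its intervals (from
left to right); a strategy starts with the one-element list `[1]` and cuts one interval at a time.

For a strategy of length `n` with all ratios at most `D` the main inequality is
`1 ≤ D * ρ ^ (⌈n/2⌉ - 1)`, where `ρ` bounds the quotient of the longest intervals at consecutive
times: some interval of the partition at time `n - (⌈n/2⌉ - 1)` is never cut again. For finite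
strategies `ρ = D / 2`, which gives `disc(n) = 2^(1 - 1/⌈n/2⌉)`.

In an infinite strategy the two pieces `a ≤ b` of an interval cut before time `n` are both cut before
time `4 n` (otherwise all intervals would be too long), and this forces `b ≥ (2 / D') a`, where `D'` is
the discrepancy up to time `4 n`. So `ρ = D / (1 + 2 / D')` is possible, and an infinite strategy
cannot be close to optimal at time `n` without being bad at time `4 n`.
-/

set_option autoImplicit false

namespace Pool.Agent.Results.MP_eb524a_co.OrderOptimalStrategies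

open Filter Topology

/-- A partition of `[0,1]` into intervals is given by the list of the lengths of its intervals,
from left to right. `Cut L L'`: the partition `L'` arises from `L` by cutting one of its intervals
into two intervals of positive length. -/
def Cut (L L' : List ℝ) : Prop :=
  ∃ (l₁ l₂ : List ℝ) (a b : ℝ), 0 < a ∧ 0 < b ∧ L = l₁ ++ (a + b) :: l₂ ∧ L' = l₁ ++ a :: b :: l₂

/-- `disc(I)`: the maximal ratio of the lengths of two intervals. -/
noncomputable def disc (L : List ℝ) : ℝ := sSup {r | ∃ x ∈ L, ∃ y ∈ L, r = x / y}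

/-- strategies of length `n`: `S 1, …, S n`, where `S 1` consists of the single interval `[0,1]` -/
def IsStrategy (n : ℕ) (S : ℕ → List ℝ) : Prop :=
  S 1 = [1] ∧ ∀ i, 1 ≤ i → i < n → Cut (S i) (S (i + 1))

/-- strategies of infinite length -/
def IsInfiniteStrategy (S : ℕ → List ℝ) : Prop :=
  S 1 = [1] ∧ ∀ i, 1 ≤ i → Cut (S i) (S (i + 1))

/-- `disc_n(S) = max_{1 ≤ t ≤ n} disc(S t)`; for a strategy of length `n` this is `disc(S)`. -/
noncomputable def discUpTo (S : ℕ → List ℝ) (n : ℕ) : ℝ :=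
  sSup {r | ∃ t, 1 ≤ t ∧ t ≤ n ∧ r = disc (S t)}

/-- `disc(n)`, the infimum of `disc(S)` over all strategies of length `n` -/
noncomputable def discMin (n : ℕ) : ℝ := sInf {r | ∃ S, IsStrategy n S ∧ r = discUpTo S n}

/-! ### multisets -/

/-- the cut of an interval on the level of multisets, the smaller piece is `a` -/
def MCut (A B : Multiset ℝ) : Prop :=
  ∃ (R : Multiset ℝ) (a b : ℝ), 0 < a ∧ a ≤ b ∧ A = (a + b) ::ₘ R ∧ B = a ::ₘ b ::ₘ R

lemma Cut.mcut {L L' : List ℝ} (h : Cut L L') : MCut (L : Multiset ℝ) (L' : Multiset ℝ) := by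
  obtain ⟨l₁, l₂, a, b, ha, hb, rfl, rfl⟩ := h
  have e1 : ((l₁ ++ (a + b) :: l₂ : List ℝ) : Multiset ℝ)
      = (a + b) ::ₘ ((l₁ : Multiset ℝ) + (l₂ : Multiset ℝ)) := by
    rw [← Multiset.coe_add, ← Multiset.cons_coe, Multiset.add_cons]
  have e2 : ((l₁ ++ a :: b :: l₂ : List ℝ) : Multiset ℝ)
      = a ::ₘ b ::ₘ ((l₁ : Multiset ℝ) + (l₂ : Multiset ℝ)) := by
    rw [← Multiset.coe_add, ← Multiset.cons_coe, ← Multiset.cons_coe, Multiset.add_cons,
      Multiset.add_cons]
  rcases le_total a b with h | h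
  · exact ⟨_, a, b, ha, h, e1, e2⟩
  · exact ⟨_, b, a, hb, h, by rw [e1, add_comm], by rw [e2, Multiset.cons_swap]⟩

lemma MCut.cut {L : List ℝ} {B : Multiset ℝ} (h : MCut (L : Multiset ℝ) B) :
    ∃ L' : List ℝ, Cut L L' ∧ (L' : Multiset ℝ) = B := by
  obtain ⟨R, a, b, ha, hab, hA, rfl⟩ := h
  have hmem : a + b ∈ L := by
    have : a + b ∈ (L : Multiset ℝ) := by rw [hA]; exact Multiset.mem_cons_self _ _
    exact this
  obtain ⟨l₁, l₂, rfl⟩ := List.append_of_mem hmem
  refine ⟨l₁ ++ a :: b :: l₂, ⟨l₁, l₂, a, b, ha, ha.trans_le hab, rfl, rfl⟩, ?_⟩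
  have e1 : ((l₁ ++ (a + b) :: l₂ : List ℝ) : Multiset ℝ)
      = (a + b) ::ₘ ((l₁ : Multiset ℝ) + (l₂ : Multiset ℝ)) := by
    rw [← Multiset.coe_add, ← Multiset.cons_coe, Multiset.add_cons]
  rw [e1] at hA
  have hR := (Multiset.cons_inj_right _).1 hA
  rw [← Multiset.coe_add, ← Multiset.cons_coe, ← Multiset.cons_coe, Multiset.add_cons,
      Multiset.add_cons, hR]

/-- chains -/
def Chain (n : ℕ) (m : ℕ → Multiset ℝ) : Prop :=
  m 1 = {1} ∧ ∀ i, 1 ≤ i → i < n → MCut (m i) (m (i + 1))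

section chain
variable {n : ℕ} {m : ℕ → Multiset ℝ} (hm : Chain n m)
include hm

lemma Chain.card : ∀ t, 1 ≤ t → t ≤ n → Multiset.card (m t) = t := by
  intro t ht
  induction t, ht using Nat.le_induction with
  | base => intro _; rw [hm.1]; simp
  | succ t ht ih =>
    intro htn
    obtain ⟨R, a, b, -, -, h1, h2⟩ := hm.2 t ht (by omega)
    have := ih (by omega)
    rw [h1, Multiset.card_cons] at this
    rw [h2, Multiset.card_cons, Multiset.card_cons]
    omega

lemma Chain.sum : ∀ t, 1 ≤ t → t ≤ n → (m t).sum = 1 := by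
  intro t ht
  induction t, ht using Nat.le_induction with
  | base => intro _; rw [hm.1]; simp
  | succ t ht ih =>
    intro htn
    obtain ⟨R, a, b, -, -, h1, h2⟩ := hm.2 t ht (by omega)
    have := ih (by omega)
    rw [h1, Multiset.sum_cons] at this
    rw [h2, Multiset.sum_cons, Multiset.sum_cons]
    linarith

lemma Chain.pos : ∀ t, 1 ≤ t → t ≤ n → ∀ x ∈ m t, 0 < x := by
  intro t ht
  induction t, ht using Nat.le_induction with
  | base => intro _ x hx; rw [hm.1] at hx; simp at hx; rw [hx]; norm_num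
  | succ t ht ih =>
    intro htn x hx
    obtain ⟨R, a, b, ha, hab, h1, h2⟩ := hm.2 t ht (by omega)
    rw [h2, Multiset.mem_cons, Multiset.mem_cons] at hx
    rcases hx with rfl | rfl | hx
    · exact ha
    · exact ha.trans_le hab
    · exact ih (by omega) x (by rw [h1]; exact Multiset.mem_cons_of_mem hx)

/-- at most two new intervals per step -/
lemma Chain.card_sub (T : ℕ) (hT : 1 ≤ T) : ∀ k, T + k ≤ n →
    Multiset.card (m (T + k) - m T) ≤ 2 * k := by
  intro k
  induction k with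
  | zero => intro _; simp
  | succ k ih =>
    intro hk
    obtain ⟨R, a, b, -, -, h1, h2⟩ := hm.2 (T + k) (by omega) (by omega)
    have h3 : m (T + (k + 1)) - m T ≤ (m (T + (k+1)) - m (T + k)) + (m (T + k) - m T) :=
      tsub_le_tsub_add_tsub
    have h4 : Multiset.card (m (T + (k+1)) - m (T + k)) ≤ 2 := by
      have e : m (T + (k + 1)) = m (T + k + 1) := rfl
      rw [e, h2, h1]
      have : a ::ₘ b ::ₘ R - (a + b) ::ₘ R ≤ {a, b} := by
        rw [tsub_le_iff_right]
        have : ({a, b} : Multiset ℝ) + (a + b) ::ₘ R = a ::ₘ b ::ₘ ((a + b) ::ₘ R) := by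
          simp only [Multiset.insert_eq_cons, Multiset.cons_add, Multiset.singleton_add]
        rw [this]
        exact Multiset.cons_le_cons _ (Multiset.cons_le_cons _ (Multiset.le_cons_self _ _))
      refine (Multiset.card_le_card this).trans ?_
      simp
    have h5 := Multiset.card_le_card h3
    rw [Multiset.card_add] at h5
    have := ih (by omega)
    omega

/-- the main inequality -/
lemma Chain.main (hn : 1 ≤ n) (D ρ : ℝ) (_hρ : 0 ≤ ρ)
    (hD : ∀ t, 1 ≤ t → t ≤ n → ∀ x ∈ m t, ∀ y ∈ m t, x ≤ D * y)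
    (hstep : ∀ t, 1 ≤ t → t < n → ∀ M, (∀ x ∈ m t, x ≤ M) → ∀ x ∈ m (t + 1), x ≤ ρ * M) :
    1 ≤ D * ρ ^ ((n + 1) / 2 - 1) := by
  set k := (n + 1) / 2 - 1 with hk
  have hkn : 2 * k < n := by omega
  set T := n - k with hT
  have hT1 : 1 ≤ T := by omega
  have hTk : T + k = n := by omega
  -- a maximal element at time T
  obtain ⟨M, hM, hMmax⟩ : ∃ M ∈ m T, ∀ x ∈ m T, x ≤ M := by
    have hne : (m T).toFinset.Nonempty := by
      rw [Multiset.toFinset_nonempty]
      intro h0
      have := hm.card T hT1 (by omega)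
      rw [h0] at this
      simp at this
      omega
    obtain ⟨M, hM, hmax⟩ := (m T).toFinset.exists_max_image id hne
    exact ⟨M, Multiset.mem_toFinset.1 hM, fun x hx => hmax x (Multiset.mem_toFinset.2 hx)⟩
  have hind : ∀ j, T + j ≤ n → ∀ x ∈ m (T + j), x ≤ ρ ^ j * M := by
    intro j
    induction j with
    | zero => intro _ x hx; simpa using hMmax x hx
    | succ j ih =>
      intro hj x hx
      have := hstep (T + j) (by omega) (by omega) _ (ih (by omega)) x hx
      rw [pow_succ]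
      linarith
  -- a common element
  obtain ⟨z, hz1, hz2⟩ : ∃ z, z ∈ m T ∧ z ∈ m n := by
    by_contra hcon
    push Not at hcon
    have h1 := hm.card_sub T hT1 k (by omega)
    rw [hTk] at h1
    have h2 : m n - m T = m n := by
      ext z
      rw [Multiset.count_sub]
      by_cases hz : z ∈ m T
      · rw [Multiset.count_eq_zero_of_notMem (hcon z hz)]; simp
      · rw [Multiset.count_eq_zero_of_notMem hz]; simp
    rw [h2, hm.card n hn le_rfl] at h1
    omega
  have hMpos := hm.pos T hT1 (by omega) M hM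
  have h1 := hD T hT1 (by omega) M hM z hz1
  have h2 := hind k (by omega) z (by rw [hTk]; exact hz2)
  have hDpos : 0 ≤ D := by
    have := hD T hT1 (by omega) M hM M hM
    nlinarith
  have h3 : M ≤ D * (ρ ^ k * M) := h1.trans (mul_le_mul_of_nonneg_left h2 hDpos)
  have h4 : 1 * M ≤ (D * ρ ^ k) * M := by linarith
  exact le_of_mul_le_mul_right h4 hMpos

/-- finite strategies -/
lemma Chain.lower (hn : 1 ≤ n) (D : ℝ)
    (hD : ∀ t, 1 ≤ t → t ≤ n → ∀ x ∈ m t, ∀ y ∈ m t, x ≤ D * y) :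
    (2 : ℝ) ^ ((n + 1) / 2 - 1) ≤ D ^ ((n + 1) / 2) := by
  have hD1 : 1 ≤ D := by
    have := hD 1 le_rfl hn 1 (by rw [hm.1]; simp) 1 (by rw [hm.1]; simp)
    linarith
  have h := hm.main hn D (D / 2) (by positivity) hD ?_
  · rw [div_pow] at h
    have h2 : (0:ℝ) < 2 ^ ((n + 1) / 2 - 1) := by positivity
    have e : D ^ ((n + 1) / 2) = D * D ^ ((n + 1) / 2 - 1) := by
      rw [← pow_succ']; congr 1; omega
    rw [e]
    have : D * (D ^ ((n + 1) / 2 - 1) / 2 ^ ((n + 1) / 2 - 1))
      = (D * D ^ ((n + 1) / 2 - 1)) / 2 ^ ((n + 1) / 2 - 1) := by ring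
    rw [this, le_div_iff₀ h2] at h
    linarith
  · intro t ht htn M hM x hx
    obtain ⟨R, a, b, ha, hab, h1, h2⟩ := hm.2 t ht htn
    have h3 := hD (t + 1) (by omega) (by omega) x hx a (by rw [h2]; simp)
    have h4 := hM (a + b) (by rw [h1]; simp)
    have : D * a ≤ D / 2 * M := by nlinarith
    linarith

end chain

/-- two pieces which are cut later differ -/
lemma Chain.pair {n : ℕ} (N : ℕ) (hN : N = 4 * n) (m' : ℕ → Multiset ℝ) (hm' : Chain N m')
    (D' : ℝ) (hD'2 : D' < 2)
    (hD' : ∀ t, 1 ≤ t → t ≤ N → ∀ x ∈ m' t, ∀ y ∈ m' t, x ≤ D' * y)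
    (t : ℕ) (ht : 1 ≤ t) (htn : t < n) (R : Multiset ℝ) (a b : ℝ) (ha : 0 < a) (hab : a ≤ b)
    (h2 : m' (t + 1) = a ::ₘ b ::ₘ R) : 2 * a ≤ D' * b := by
  by_contra hcon
  push Not at hcon
  have hD'1 : 1 ≤ D' := by
    have := hD' 1 le_rfl (by omega) 1 (by rw [hm'.1]; simp) 1 (by rw [hm'.1]; simp)
    linarith
  have hP : ∀ s, t + 1 ≤ s → s ≤ N → ({a, b} : Multiset ℝ) ≤ m' s := by
    intro s hs
    induction s, hs using Nat.le_induction with
    | base =>
      intro _
      rw [h2]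
      have : ({a, b} : Multiset ℝ) = a ::ₘ b ::ₘ 0 := rfl
      rw [this]
      exact Multiset.cons_le_cons _ (Multiset.cons_le_cons _ (Multiset.zero_le _))
    | succ s hs ih =>
      intro hsN
      have ih := ih (by omega)
      obtain ⟨Q, x, y, hx, hxy, e1, e2⟩ := hm'.2 s (by omega) (by omega)
      rw [e1] at ih
      have hb : b ≠ x + y := by
        rintro rfl
        -- b is cut, a remains
        have h5 : ({a} : Multiset ℝ) ≤ Q := by
          have h6 : ({a, x + y} : Multiset ℝ) = (x + y) ::ₘ {a} := by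
            rw [Multiset.pair_comm]; rfl
          rw [h6] at ih
          exact (Multiset.cons_le_cons_iff _).1 ih
        have h7 : a ∈ Q := Multiset.singleton_le.1 h5
        have h8 := hD' (s + 1) (by omega) (by omega) a (by rw [e2]; simp [h7]) x (by rw [e2]; simp)
        nlinarith
      have ha' : a ≠ x + y := by
        rintro rfl
        have h5 : ({b} : Multiset ℝ) ≤ Q := by
          have h6 : ({x + y, b} : Multiset ℝ) = (x + y) ::ₘ {b} := rfl
          rw [h6] at ih
          exact (Multiset.cons_le_cons_iff _).1 ih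
        have h7 : b ∈ Q := Multiset.singleton_le.1 h5
        have h8 := hD' (s + 1) (by omega) (by omega) b (by rw [e2]; simp [h7]) x (by rw [e2]; simp)
        nlinarith
      have h9 : ({a, b} : Multiset ℝ) ≤ Q := by
        rw [Multiset.le_cons_of_notMem] at ih
        · exact ih
        · simp only [Multiset.insert_eq_cons, Multiset.mem_cons, Multiset.mem_singleton]
          rintro (h | h)
          · exact ha' h.symm
          · exact hb h.symm
      rw [e2]
      exact h9.trans ((Multiset.le_cons_self _ _).trans (Multiset.le_cons_self _ _))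
  have hbpos : 0 < b := ha.trans_le hab
  -- at time t+1 all intervals are at most D' b
  have hsum1 := hm'.sum (t + 1) (by omega) (by omega)
  have hcard1 := hm'.card (t + 1) (by omega) (by omega)
  have h10 : (m' (t + 1)).sum ≤ Multiset.card (m' (t + 1)) • (D' * b) := by
    apply Multiset.sum_le_card_nsmul
    intro x hx
    exact hD' (t + 1) (by omega) (by omega) x hx b (by rw [h2]; simp)
  rw [hsum1, hcard1, nsmul_eq_mul] at h10
  -- at time N all intervals are at least b / D'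
  have hsum2 := hm'.sum N (by omega) le_rfl
  have hcard2 := hm'.card N (by omega) le_rfl
  have hbN : b ∈ m' N := by
    have := hP N (by omega) le_rfl
    exact Multiset.mem_of_le this (by simp)
  have h11 : Multiset.card (m' N) • (b / D') ≤ (m' N).sum := by
    apply Multiset.card_nsmul_le_sum
    intro x hx
    have := hD' N (by omega) le_rfl b hbN x hx
    rw [div_le_iff₀ (by linarith)]
    linarith
  rw [hsum2, hcard2, nsmul_eq_mul] at h11
  have h12 : (N : ℝ) = 4 * n := by rw [hN]; push_cast; ring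
  have h13 : ((t + 1 : ℕ) : ℝ) ≤ n := by exact_mod_cast htn
  have h14 : (1 : ℝ) ≤ n * (D' * b) := h10.trans (mul_le_mul_of_nonneg_right h13 (by positivity))
  rw [h12] at h11
  have h15 : 4 * (n : ℝ) * b ≤ D' := by
    have : 4 * (n : ℝ) * (b / D') = (4 * n * b) / D' := by ring
    rw [this, div_le_one (by linarith)] at h11
    exact h11
  nlinarith

/-- infinite strategies -/
lemma Chain.infinite {n : ℕ} (hn : 1 ≤ n) {m : ℕ → Multiset ℝ} (hm : Chain (4 * n) m)
    (D D' : ℝ)
    (hD : ∀ t, 1 ≤ t → t ≤ n → ∀ x ∈ m t, ∀ y ∈ m t, x ≤ D * y)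
    (hD' : ∀ t, 1 ≤ t → t ≤ 4 * n → ∀ x ∈ m t, ∀ y ∈ m t, x ≤ D' * y) :
    (1 + 2 / D') ^ ((n + 1) / 2 - 1) ≤ D ^ ((n + 1) / 2) := by
  have hmn : Chain n m := ⟨hm.1, fun i h1 h2 => hm.2 i h1 (by omega)⟩
  have hD1 : 1 ≤ D := by
    have := hD 1 le_rfl hn 1 (by rw [hm.1]; simp) 1 (by rw [hm.1]; simp)
    linarith
  have hD'1 : 1 ≤ D' := by
    have := hD' 1 le_rfl (by omega) 1 (by rw [hm.1]; simp) 1 (by rw [hm.1]; simp)
    linarith
  have hc : 0 < 1 + 2 / D' := by positivity
  rcases lt_or_ge D' 2 with h2 | h2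
  · have h := hmn.main hn D (D / (1 + 2 / D')) (by positivity) hD ?_
    · rw [div_pow] at h
      have h2 : (0:ℝ) < (1 + 2 / D') ^ ((n + 1) / 2 - 1) := by positivity
      have e : D ^ ((n + 1) / 2) = D * D ^ ((n + 1) / 2 - 1) := by
        rw [← pow_succ']; congr 1; omega
      rw [e]
      rw [mul_div_assoc', le_div_iff₀ h2] at h
      linarith
    · intro t ht htn M hM x hx
      obtain ⟨R, a, b, ha, hab, h1, h2'⟩ := hm.2 t ht (by omega)
      have h3 := hD (t + 1) (by omega) (by omega) x hx a (by rw [h2']; simp)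
      have h4 := hM (a + b) (by rw [h1]; simp)
      have h5 := Chain.pair (4 * n) rfl m hm D' h2 hD' t ht htn R a b ha hab h2'
      have h6 : a * (1 + 2 / D') ≤ M := by
        have : a * (2 / D') ≤ b := by
          rw [mul_div_assoc', div_le_iff₀ (by linarith)]
          linarith
        linarith
      have h7 : D * a ≤ D / (1 + 2 / D') * M := by
        rw [div_mul_eq_mul_div, le_div_iff₀ hc]
        nlinarith
      linarith
  · refine le_trans ?_ (hmn.lower hn D hD)
    apply pow_le_pow_left₀ hc.le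
    have : 2 / D' ≤ 1 := by rw [div_le_one (by linarith)]; exact h2
    linarith

/-! ### the construction -/

/-- the ratio condition for every partition of the chain -/
def Reach (q : ℝ) (n : ℕ) (B : Multiset ℝ) : Prop :=
  ∃ m, Chain n m ∧ (∀ t, 1 ≤ t → t ≤ n → ∀ x ∈ m t, ∀ y ∈ m t, q * y ≤ 2 * x) ∧ m n = B

lemma Reach.one {q : ℝ} (hq : q ≤ 2) : Reach q 1 {1} := by
  refine ⟨fun _ => {1}, ⟨rfl, fun i h1 h2 => by omega⟩, ?_, rfl⟩
  intro t _ _ x hx y hy
  simp at hx hy
  subst hx hy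
  linarith

lemma Reach.step {q : ℝ} {n : ℕ} (hn : 1 ≤ n) {A B : Multiset ℝ} (h : Reach q n A)
    (hc : MCut A B) (hB : ∀ x ∈ B, ∀ y ∈ B, q * y ≤ 2 * x) : Reach q (n + 1) B := by
  obtain ⟨m, hm, hr, hA⟩ := h
  refine ⟨fun t => if t ≤ n then m t else B, ⟨?_, ?_⟩, ?_, ?_⟩
  · simp only [hn, if_true]; exact hm.1
  · intro i h1 h2
    by_cases hi : i < n
    · simp only [show i ≤ n by omega, show i + 1 ≤ n by omega, if_true]
      exact hm.2 i h1 hi
    · have : i = n := by omega
      subst this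
      simp only [le_refl, if_true, show ¬ (i + 1 ≤ i) by omega, if_false]
      rw [hA]; exact hc
  · intro t ht1 ht2
    by_cases hi : t ≤ n
    · simp only [hi, if_true]; exact hr t ht1 hi
    · simp only [hi, if_false]; exact hB
  · simp

/-- the shape of the partitions -/
def EvenL (q : ℝ) (l : List ℝ) : Prop :=
  (∀ x ∈ l, 0 < x) ∧ l.Pairwise (fun x y => q * x ≤ y) ∧ ∀ x ∈ l, ∀ y ∈ l, q * y ≤ 2 * x

lemma build_even {q : ℝ} (hq1 : 1 ≤ q) (hq2 : q ≤ 2) : ∀ (k : ℕ) (l : List ℝ),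
    l.length = k + 1 → EvenL q l → l.sum = 1 → Reach q (k + 1) (l : Multiset ℝ) := by
  intro k
  induction k with
  | zero =>
    intro l hl _ hs
    obtain ⟨x, rfl⟩ := List.length_eq_one_iff.1 hl
    simp at hs
    subst hs
    exact Reach.one hq2
  | succ k ih =>
    intro l hl he hs
    match l, hl with
    | x₁ :: x₂ :: r, hl =>
      obtain ⟨hpos, hpw, hcyc⟩ := he
      have hx₁ : 0 < x₁ := hpos x₁ (by simp)
      have hx₂ : 0 < x₂ := hpos x₂ (by simp)
      rw [List.pairwise_cons, List.pairwise_cons] at hpw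
      obtain ⟨hp1, hp2, hp3⟩ := hpw
      have h12 : x₁ ≤ x₂ := by
        have := hp1 x₂ (by simp)
        nlinarith
      have hlen : (r ++ [x₁ + x₂]).length = k + 1 := by simp at hl ⊢; omega
      have he' : EvenL q (r ++ [x₁ + x₂]) := by
        refine ⟨?_, ?_, ?_⟩
        · intro x hx
          rw [List.mem_append, List.mem_singleton] at hx
          rcases hx with hx | rfl
          · exact hpos x (by simp [hx])
          · linarith
        · rw [List.pairwise_append]
          refine ⟨hp3, List.pairwise_singleton _ _, ?_⟩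
          intro y hy z hz
          rw [List.mem_singleton] at hz
          subst hz
          have := hcyc x₁ (by simp) y (by simp [hy])
          linarith
        · intro x hx y hy
          rw [List.mem_append, List.mem_singleton] at hx hy
          rcases hx with hx | rfl <;> rcases hy with hy | rfl
          · exact hcyc x (by simp [hx]) y (by simp [hy])
          · have h1 := hp1 x (by simp [hx])
            have h2 := hp2 x hx
            nlinarith
          · have := hcyc x₁ (by simp) y (by simp [hy])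
            linarith
          · nlinarith
      have hs' : (r ++ [x₁ + x₂]).sum = 1 := by
        rw [List.sum_append, List.sum_singleton]
        simp only [List.sum_cons] at hs
        linarith
      have h := ih _ hlen he' hs'
      refine h.step (by omega) ⟨(r : Multiset ℝ), x₁, x₂, hx₁, h12, ?_, rfl⟩ ?_
      · rw [← Multiset.coe_add, Multiset.coe_singleton, ← Multiset.singleton_add, add_comm]
      · intro x hx y hy
        exact hcyc x hx y hy

lemma split {q : ℝ} (hq1 : 1 ≤ q) (hq2 : q ≤ 2) : ∀ (l₂ l₁ : List ℝ),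
    EvenL q (l₁ ++ l₂) → (l₁ ++ l₂).sum = 1 → l₁ ++ l₂ ≠ [] →
    Reach q (l₁.length + 2 * l₂.length)
      ((l₁ : Multiset ℝ) + (l₂.map (· / 2) : List ℝ) + (l₂.map (· / 2) : List ℝ)) := by
  intro l₂
  induction l₂ with
  | nil =>
    intro l₁ he hs hne
    rw [List.append_nil] at he hs hne
    have hl : l₁.length = (l₁.length - 1) + 1 := by
      have := List.length_pos_iff.2 hne
      omega
    have := build_even hq1 hq2 _ l₁ hl he hs
    rw [← hl] at this
    simpa using this
  | cons g l₂ ih =>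
    intro l₁ he hs hne
    have e0 : l₁ ++ g :: l₂ = (l₁ ++ [g]) ++ l₂ := by simp
    have h := ih (l₁ ++ [g]) (by rw [← e0]; exact he) (by rw [← e0]; exact hs) (by simp)
    have e1 : l₁.length + 2 * (g :: l₂).length = (l₁ ++ [g]).length + 2 * l₂.length + 1 := by
      simp; omega
    obtain ⟨hpos, hpw, hcyc⟩ := he
    have hg : 0 < g := hpos g (by simp)
    rw [List.pairwise_append] at hpw
    obtain ⟨-, -, hp⟩ := hpw
    rw [e1]
    refine h.step (by simp; omega) ⟨(l₁ : Multiset ℝ) + (l₂.map (· / 2) : List ℝ) +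
      (l₂.map (· / 2) : List ℝ), g / 2, g / 2, by positivity, le_rfl, ?_, ?_⟩ ?_
    · rw [add_halves, ← Multiset.coe_add, Multiset.coe_singleton, add_comm (l₁ : Multiset ℝ) {g},
        Multiset.singleton_add, Multiset.cons_add, Multiset.cons_add]
    · rw [List.map_cons, ← Multiset.cons_coe, Multiset.add_cons, Multiset.add_cons,
        Multiset.cons_add]
    · intro x hx y hy
      simp only [Multiset.mem_add, Multiset.mem_coe, List.mem_map, or_assoc] at hx hy
      have hx' : x ∈ l₁ ∨ ∃ u ∈ g :: l₂, u / 2 = x := by tauto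
      have hy' : y ∈ l₁ ∨ ∃ u ∈ g :: l₂, u / 2 = y := by tauto
      rcases hx' with hx | ⟨u, hu, rfl⟩ <;> rcases hy' with hy | ⟨v, hv, rfl⟩
      · exact hcyc x (List.mem_append_left _ hx) y (List.mem_append_left _ hy)
      · have h1 := hcyc x (List.mem_append_left _ hx) v (List.mem_append_right _ hv)
        have := hpos x (List.mem_append_left _ hx)
        linarith
      · have h1 := hp y hy u hu
        linarith
      · have h1 := hcyc u (List.mem_append_right _ hu) v (List.mem_append_right _ hv)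
        linarith

/-- the chain with small discrepancy -/
lemma exists_chain (n : ℕ) (hn : 1 ≤ n) (q : ℝ) (hq1 : 1 ≤ q) (hq : q ^ ((n + 1) / 2) = 2) :
    ∃ B, Reach q n B := by
  set h := (n + 1) / 2 with hh
  have hh1 : 1 ≤ h := by omega
  have hq2 : q ≤ 2 := by
    rw [← hq]
    exact le_self_pow₀ hq1 (by omega)
  have hqpos : 0 < q := by linarith
  set w : ℝ := ((List.range h).map (fun i => q ^ i)).sum with hw
  have hwpos : 0 < w := by
    rw [hw]
    apply List.sum_pos
    · intro x hx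
      simp only [List.mem_map] at hx
      obtain ⟨i, -, rfl⟩ := hx
      positivity
    · simp; omega
  set G : List ℝ := (List.range h).map (fun i => w⁻¹ * q ^ i) with hG
  have hlen : G.length = h := by simp [hG]
  have hsum : G.sum = 1 := by
    rw [hG, List.sum_map_mul_left, ← hw]
    exact inv_mul_cancel₀ hwpos.ne'
  have heven : EvenL q G := by
    refine ⟨?_, ?_, ?_⟩
    · intro x hx
      simp only [hG, List.mem_map] at hx
      obtain ⟨i, -, rfl⟩ := hx
      positivity
    · rw [hG, List.pairwise_map]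
      apply List.pairwise_lt_range.imp
      intro i j hij
      have : q ^ (i + 1) ≤ q ^ j := pow_le_pow_right₀ hq1 hij
      have h2 : q * (w⁻¹ * q ^ i) = w⁻¹ * q ^ (i + 1) := by rw [pow_succ]; ring
      rw [h2]
      exact mul_le_mul_of_nonneg_left this (by positivity)
    · intro x hx y hy
      simp only [hG, List.mem_map, List.mem_range] at hx hy
      obtain ⟨i, hi, rfl⟩ := hx
      obtain ⟨j, hj, rfl⟩ := hy
      have h1 : q ^ (j + 1) ≤ q ^ h := pow_le_pow_right₀ hq1 hj
      have h2 : 1 ≤ q ^ i := one_le_pow₀ hq1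
      have h3 : q * (w⁻¹ * q ^ j) = w⁻¹ * q ^ (j + 1) := by rw [pow_succ]; ring
      have h4 : 2 * (w⁻¹ * q ^ i) = w⁻¹ * (2 * q ^ i) := by ring
      rw [h3, h4]
      apply mul_le_mul_of_nonneg_left _ (by positivity)
      rw [hq] at h1
      linarith
  have e : G.take (2 * h - n) ++ G.drop (2 * h - n) = G := List.take_append_drop _ _
  have hr := split hq1 hq2 (G.drop (2 * h - n)) (G.take (2 * h - n)) (by rw [e]; exact heven)
    (by rw [e]; exact hsum) (by
      rw [e]
      intro h0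
      rw [h0] at hlen
      simp at hlen
      omega)
  have e2 : (G.take (2 * h - n)).length + 2 * (G.drop (2 * h - n)).length = n := by
    rw [List.length_take, List.length_drop, hlen]
    omega
  rw [e2] at hr
  exact ⟨_, hr⟩

lemma exists_lists : ∀ (n : ℕ), 1 ≤ n → ∀ m, Chain n m →
    ∃ S : ℕ → List ℝ, IsStrategy n S ∧ ∀ t, 1 ≤ t → t ≤ n → (S t : Multiset ℝ) = m t := by
  intro n hn
  induction n, hn using Nat.le_induction with
  | base =>
    intro m hm
    refine ⟨fun _ => [1], ⟨rfl, fun i h1 h2 => by omega⟩, ?_⟩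
    intro t h1 h2
    have : t = 1 := by omega
    subst this
    rw [hm.1]; rfl
  | succ n hn ih =>
    intro m hm
    obtain ⟨S, hS, hSm⟩ := ih m ⟨hm.1, fun i h1 h2 => hm.2 i h1 (by omega)⟩
    have hc := hm.2 n hn (by omega)
    rw [← hSm n hn le_rfl] at hc
    obtain ⟨L', hL', hL'm⟩ := hc.cut
    refine ⟨fun t => if t ≤ n then S t else L', ⟨?_, ?_⟩, ?_⟩
    · simp only [hn, if_true]; exact hS.1
    · intro i h1 h2
      by_cases hi : i < n
      · simp only [show i ≤ n by omega, show i + 1 ≤ n by omega, if_true]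
        exact hS.2 i h1 hi
      · have : i = n := by omega
        subst this
        simp only [le_refl, if_true, show ¬ (i + 1 ≤ i) by omega, if_false]
        exact hL'
    · intro t h1 h2
      by_cases hi : t ≤ n
      · simp only [hi, if_true]; exact hSm t h1 hi
      · have : t = n + 1 := by omega
        subst this
        simp only [hi, if_false]
        exact hL'm

/-! ### discrepancies -/

lemma disc_bdd (L : List ℝ) : BddAbove {r | ∃ x ∈ L, ∃ y ∈ L, r = x / y} := by
  have : {r | ∃ x ∈ L, ∃ y ∈ L, r = x / y}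
      ⊆ (((L.toFinset ×ˢ L.toFinset).image (fun p : ℝ × ℝ => p.1 / p.2) : Finset ℝ) : Set ℝ) := by
    rintro r ⟨x, hx, y, hy, rfl⟩
    simp only [Finset.coe_image, Set.mem_image, Finset.mem_coe, Finset.mem_product,
      List.mem_toFinset]
    exact ⟨(x, y), ⟨hx, hy⟩, rfl⟩
  exact (Finset.finite_toSet _).bddAbove.mono this

lemma le_disc {L : List ℝ} {x y : ℝ} (hx : x ∈ L) (hy : y ∈ L) : x / y ≤ disc L :=
  le_csSup (disc_bdd L) ⟨x, hx, y, hy, rfl⟩

lemma disc_le {L : List ℝ} (hne : L ≠ []) {D : ℝ} (h : ∀ x ∈ L, ∀ y ∈ L, x / y ≤ D) :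
    disc L ≤ D := by
  obtain ⟨x, hx⟩ := List.exists_mem_of_ne_nil L hne
  have hne' : {r | ∃ x ∈ L, ∃ y ∈ L, r = x / y}.Nonempty := ⟨x / x, x, hx, x, hx, rfl⟩
  refine csSup_le hne' ?_
  rintro r ⟨x, hx, y, hy, rfl⟩
  exact h x hx y hy

lemma discUpTo_bdd (S : ℕ → List ℝ) (n : ℕ) :
    BddAbove {r | ∃ t, 1 ≤ t ∧ t ≤ n ∧ r = disc (S t)} := by
  have : {r | ∃ t, 1 ≤ t ∧ t ≤ n ∧ r = disc (S t)}
      ⊆ (((Finset.Icc 1 n).image (fun t => disc (S t)) : Finset ℝ) : Set ℝ) := by
    rintro r ⟨t, h1, h2, rfl⟩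
    simp only [Finset.coe_image, Set.mem_image, Finset.mem_coe, Finset.mem_Icc]
    exact ⟨t, ⟨h1, h2⟩, rfl⟩
  exact (Finset.finite_toSet _).bddAbove.mono this

lemma le_discUpTo {S : ℕ → List ℝ} {n t : ℕ} (h1 : 1 ≤ t) (h2 : t ≤ n) :
    disc (S t) ≤ discUpTo S n :=
  le_csSup (discUpTo_bdd S n) ⟨t, h1, h2, rfl⟩

lemma IsStrategy.chain {n : ℕ} {S : ℕ → List ℝ} (h : IsStrategy n S) :
    Chain n (fun t => (S t : Multiset ℝ)) := by
  refine ⟨?_, fun i h1 h2 => (h.2 i h1 h2).mcut⟩
  simp only [h.1]; rfl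

lemma IsStrategy.ratio {n : ℕ} {S : ℕ → List ℝ} (h : IsStrategy n S) {k : ℕ} (hk : k ≤ n) :
    ∀ t, 1 ≤ t → t ≤ k → ∀ x ∈ (S t : Multiset ℝ), ∀ y ∈ (S t : Multiset ℝ),
      x ≤ discUpTo S k * y := by
  intro t h1 h2 x hx y hy
  have hy0 := h.chain.pos t h1 (h2.trans hk) y hy
  have h3 := (le_disc (L := S t) hx hy).trans (le_discUpTo (S := S) h1 h2)
  rw [div_le_iff₀ hy0] at h3
  exact h3

lemma IsInfiniteStrategy.fin {S : ℕ → List ℝ} (h : IsInfiniteStrategy S) (n : ℕ) :
    IsStrategy n S := ⟨h.1, fun i h1 _ => h.2 i h1⟩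

/-- `⌈n/2⌉` -/
def hf (n : ℕ) : ℕ := (n + 1) / 2

lemma root_exists (h : ℕ) (hh : 1 ≤ h) :
    1 ≤ (2 : ℝ) ^ (1 / (h : ℝ)) ∧ ((2 : ℝ) ^ (1 / (h : ℝ))) ^ h = 2 ∧
      2 / (2 : ℝ) ^ (1 / (h : ℝ)) = (2 : ℝ) ^ (1 - 1 / (h : ℝ)) := by
  refine ⟨Real.one_le_rpow (by norm_num) (by positivity), ?_, ?_⟩
  · rw [one_div, Real.rpow_inv_natCast_pow (by norm_num) (by omega)]
  · rw [Real.rpow_sub (by norm_num), Real.rpow_one]

lemma lower_root {h : ℕ} (hh : 1 ≤ h) {c D : ℝ} (hc : 0 ≤ c) (hD : 0 ≤ D)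
    (h1 : c ^ (h - 1) ≤ D ^ h) : c ^ (1 - 1 / (h : ℝ)) ≤ D := by
  have hh0 : (h : ℝ) ≠ 0 := by positivity
  have h2 : (c ^ (h - 1)) ^ (1 / (h : ℝ)) ≤ (D ^ h) ^ (1 / (h : ℝ)) :=
    Real.rpow_le_rpow (by positivity) h1 (by positivity)
  rw [← Real.rpow_natCast, ← Real.rpow_natCast, ← Real.rpow_mul hc, ← Real.rpow_mul hD] at h2
  have e1 : (h : ℝ) * (1 / (h : ℝ)) = 1 := by field_simp
  have e2 : (((h - 1 : ℕ) : ℝ)) * (1 / (h : ℝ)) = 1 - 1 / (h : ℝ) := by
    rw [Nat.cast_sub hh]
    field_simp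
    simp
  rw [e1, e2, Real.rpow_one] at h2
  exact h2

/-- lower bound for finite strategies -/
lemma lower {n : ℕ} (hn : 1 ≤ n) {S : ℕ → List ℝ} (h : IsStrategy n S) :
    (2 : ℝ) ^ (1 - 1 / (hf n : ℝ)) ≤ discUpTo S n := by
  have h1 := h.chain.lower hn (discUpTo S n) (h.ratio le_rfl)
  have hD : 1 ≤ discUpTo S n := by
    have := h.ratio (le_refl n) 1 le_rfl hn 1 (by rw [h.1]; simp) 1 (by rw [h.1]; simp)
    linarith
  exact lower_root (h := hf n) (by unfold hf; omega) (by norm_num) (by linarith) h1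

lemma upper {n : ℕ} (hn : 1 ≤ n) :
    ∃ S, IsStrategy n S ∧ discUpTo S n ≤ (2 : ℝ) ^ (1 - 1 / (hf n : ℝ)) := by
  obtain ⟨q1, q2, q3⟩ := root_exists (hf n) (by unfold hf; omega)
  obtain ⟨B, m, hm, hr, -⟩ := exists_chain n hn _ q1 q2
  obtain ⟨S, hS, hSm⟩ := exists_lists n hn m hm
  refine ⟨S, hS, ?_⟩
  have hne : {r | ∃ t, 1 ≤ t ∧ t ≤ n ∧ r = disc (S t)}.Nonempty :=
    ⟨disc (S 1), 1, le_rfl, hn, rfl⟩
  refine csSup_le hne ?_
  rintro r ⟨t, h1, h2, rfl⟩
  rw [← q3]
  apply disc_le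
  · intro h0
    have := hm.card t h1 h2
    rw [← hSm t h1 h2, h0] at this
    simp at this
    omega
  · intro x hx y hy
    have hx' : x ∈ m t := by rw [← hSm t h1 h2]; exact hx
    have hy' : y ∈ m t := by rw [← hSm t h1 h2]; exact hy
    have hy0 := hm.pos t h1 h2 y hy'
    have := hr t h1 h2 y hy' x hx'
    rw [div_le_div_iff₀ hy0 (by linarith)]
    linarith

/-- the exact value of `disc(n)` -/
lemma discMin_eq {n : ℕ} (hn : 1 ≤ n) : discMin n = (2 : ℝ) ^ (1 - 1 / (hf n : ℝ)) := by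
  apply le_antisymm
  · obtain ⟨S, hS, hle⟩ := upper hn
    have hb : BddBelow {r | ∃ S, IsStrategy n S ∧ r = discUpTo S n} := by
      refine ⟨(2 : ℝ) ^ (1 - 1 / (hf n : ℝ)), ?_⟩
      rintro r ⟨S, hS, rfl⟩
      exact lower hn hS
    exact (csInf_le hb ⟨S, hS, rfl⟩).trans hle
  · obtain ⟨S, hS, -⟩ := upper hn
    have hne : {r | ∃ S, IsStrategy n S ∧ r = discUpTo S n}.Nonempty := ⟨_, S, hS, rfl⟩
    refine le_csInf hne ?_
    rintro r ⟨S, hS, rfl⟩
    exact lower hn hS

/-- the inequality for infinite strategies -/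
lemma tradeoff {S : ℕ → List ℝ} (hS : IsInfiniteStrategy S) {n : ℕ} (hn : 1 ≤ n) :
    (1 + 2 / discUpTo S (4 * n)) ^ (hf n - 1) ≤ discUpTo S n ^ hf n :=
  Chain.infinite hn (hS.fin (4 * n)).chain _ _ ((hS.fin (4 * n)).ratio (by omega))
    ((hS.fin (4 * n)).ratio le_rfl)

lemma one_le_discUpTo {S : ℕ → List ℝ} (hS : IsInfiniteStrategy S) {n : ℕ} (hn : 1 ≤ n) :
    1 ≤ discUpTo S n := by
  have := (hS.fin n).ratio (le_refl n) 1 le_rfl hn 1 (by rw [hS.1]; simp) 1 (by rw [hS.1]; simp)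
  linarith

/-! ### asymptotics -/

lemma tendsto_hf : Tendsto (fun n : ℕ => (hf n : ℝ)) atTop atTop := by
  apply tendsto_natCast_atTop_atTop.comp
  apply tendsto_atTop_mono (f := fun n => n / 2)
  · intro n; unfold hf; omega
  · exact Nat.tendsto_div_const_atTop (by norm_num)

lemma tendsto_inv_hf : Tendsto (fun n : ℕ => 1 / (hf n : ℝ)) atTop (𝓝 0) := by
  simp only [one_div]
  exact tendsto_inv_atTop_zero.comp tendsto_hf

lemma tendsto_d : Tendsto (fun n : ℕ => (2 : ℝ) ^ (1 - 1 / (hf n : ℝ))) atTop (𝓝 2) := by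
  have h : Tendsto (fun n : ℕ => 1 - 1 / (hf n : ℝ)) atTop (𝓝 (1 - 0)) :=
    tendsto_const_nhds.sub tendsto_inv_hf
  have h2 := (Real.continuousAt_const_rpow (a := 2) (b := 1 - 0) (by norm_num)).tendsto.comp h
  simpa [Function.comp_def] using h2

lemma tendsto_ratio : Tendsto (fun n : ℕ => (n : ℝ) / (hf n : ℝ)) atTop (𝓝 2) := by
  have h1 : Tendsto (fun n : ℕ => 2 - 1 / (hf n : ℝ)) atTop (𝓝 (2 - 0)) :=
    tendsto_const_nhds.sub tendsto_inv_hf
  rw [sub_zero] at h1
  refine tendsto_of_tendsto_of_tendsto_of_le_of_le' h1 tendsto_const_nhds ?_ ?_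
  · filter_upwards [eventually_ge_atTop 1] with n hn
    have h0 : (0 : ℝ) < hf n := by
      have : 1 ≤ hf n := by unfold hf; omega
      exact_mod_cast this
    rw [le_div_iff₀ h0, sub_mul, one_div, inv_mul_cancel₀ h0.ne']
    have : 2 * hf n ≤ n + 1 := by unfold hf; omega
    have : (2 : ℝ) * hf n ≤ n + 1 := by exact_mod_cast this
    linarith
  · filter_upwards [eventually_ge_atTop 1] with n hn
    have h0 : (0 : ℝ) < hf n := by
      have : 1 ≤ hf n := by unfold hf; omega
      exact_mod_cast this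
    rw [div_le_iff₀ h0]
    have : n ≤ 2 * hf n := by unfold hf; omega
    exact_mod_cast this

/-- `n (2 - disc(n)) → 4 log 2` -/
lemma tendsto_four : Tendsto (fun n : ℕ => (n : ℝ) * (2 - (2 : ℝ) ^ (1 - 1 / (hf n : ℝ)))) atTop
    (𝓝 (4 * Real.log 2)) := by
  -- (2^(-x) - 1)/x → -log 2
  have hder : HasDerivAt (fun x : ℝ => (2 : ℝ) ^ (-x)) (-Real.log 2) 0 := by
    have h1 : HasDerivAt (fun x : ℝ => -x) (-1) 0 := (hasDerivAt_id (0:ℝ)).neg
    have := h1.const_rpow (a := 2) (by norm_num)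
    simpa using this
  have hslope := hder.tendsto_slope
  have hseq : Tendsto (fun n : ℕ => 1 / (hf n : ℝ)) atTop (𝓝[≠] 0) := by
    rw [tendsto_nhdsWithin_iff]
    refine ⟨tendsto_inv_hf, ?_⟩
    filter_upwards [eventually_ge_atTop 1] with n hn
    have h0 : (0 : ℝ) < hf n := by
      have : 1 ≤ hf n := by unfold hf; omega
      exact_mod_cast this
    simp only [Set.mem_compl_iff, Set.mem_singleton_iff]
    positivity
  have h2 := hslope.comp hseq
  have h3 := (tendsto_ratio.mul h2).const_mul (-2)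
  have e : -2 * (2 * -Real.log 2) = 4 * Real.log 2 := by ring
  rw [e] at h3
  refine h3.congr' ?_
  filter_upwards [eventually_ge_atTop 1] with n hn
  have h0 : (0 : ℝ) < hf n := by
    have : 1 ≤ hf n := by unfold hf; omega
    exact_mod_cast this
  simp only [Function.comp_apply, slope_def_field, neg_zero, Real.rpow_zero, sub_zero]
  have e1 : (2 : ℝ) ^ (1 - 1 / (hf n : ℝ)) = 2 * (2 : ℝ) ^ (-(1 / (hf n : ℝ))) := by
    rw [sub_eq_add_neg, Real.rpow_add (by norm_num), Real.rpow_one]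
  rw [e1]
  field_simp
  ring

/-- a lower bound for `(1+y)^s` -/
lemma rpow_lower {y s : ℝ} (hy : 0 ≤ y) (hs0 : 0 ≤ s) (hs1 : s ≤ 1) :
    1 + s * y / (1 + (1 - s) * y) ≤ (1 + y) ^ s := by
  have h1 : (1 + y) ^ (1 - s) ≤ 1 + (1 - s) * y :=
    rpow_one_add_le_one_add_mul_self (by linarith) (by linarith) (by linarith)
  have hpos : 0 < (1 + y) ^ (1 - s) := by positivity
  have h2 : (1 + y) ^ s = (1 + y) / (1 + y) ^ (1 - s) := by
    rw [eq_div_iff hpos.ne', ← Real.rpow_add (by linarith)]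
    simp
  have h3 : 0 < 1 + (1 - s) * y := by nlinarith [mul_nonneg (sub_nonneg.2 hs1) hy]
  rw [h2]
  have e : 1 + s * y / (1 + (1 - s) * y) = (1 + y) / (1 + (1 - s) * y) := by
    rw [eq_div_iff h3.ne', add_mul, div_mul_cancel₀ _ h3.ne']
    ring
  rw [e]
  exact div_le_div_of_nonneg_left (by linarith) hpos h1

/-- strategies of the optimal order -/
lemma order_optimal {S : ℕ → List ℝ} (hS : IsInfiniteStrategy S) {δ : ℝ} (hδ : 0 < δ)
    (h : ∀ᶠ n : ℕ in atTop, discUpTo S n ≤ 2 - δ / n) {η : ℝ} (hη : η < δ / 8) :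
    ∀ᶠ n : ℕ in atTop, η < n * (discUpTo S n - discMin n) := by
  -- the limit of the lower bound
  have hlim : Tendsto (fun n : ℕ => (2 : ℝ) ^ (1 - 1 / (hf n : ℝ)) *
      ((1 - 1 / (hf n : ℝ)) * (δ / 16) / (1 + (1 - (1 - 1 / (hf n : ℝ))) * (δ / (16 * n)))))
      atTop (𝓝 (2 * ((1 - 0) * (δ / 16) / (1 + (1 - (1 - 0)) * 0)))) := by
    have h1 : Tendsto (fun n : ℕ => δ / (16 * (n : ℝ))) atTop (𝓝 0) := by
      apply Tendsto.div_atTop tendsto_const_nhds
      exact tendsto_natCast_atTop_atTop.const_mul_atTop (by norm_num)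
    have h2 : Tendsto (fun n : ℕ => 1 - 1 / (hf n : ℝ)) atTop (𝓝 (1 - 0)) :=
      tendsto_const_nhds.sub tendsto_inv_hf
    refine tendsto_d.mul ?_
    refine Tendsto.div (h2.mul_const _) ?_ (by norm_num)
    exact tendsto_const_nhds.add ((tendsto_const_nhds.sub h2).mul h1)
  have e : 2 * ((1 - 0) * (δ / 16) / (1 + (1 - (1 - 0)) * 0)) = δ / 8 := by ring
  rw [e] at hlim
  obtain ⟨n0, hn0⟩ := h.exists_forall_of_atTop
  filter_upwards [hlim.eventually (lt_mem_nhds hη), eventually_ge_atTop (max n0 1)] with n hlt hn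
  have hn1 : 1 ≤ n := (le_max_right _ _).trans hn
  have hnn : n0 ≤ n := (le_max_left _ _).trans hn
  refine hlt.trans_le ?_
  have hnpos : (0 : ℝ) < n := by exact_mod_cast hn1
  have hh1 : 1 ≤ hf n := by unfold hf; omega
  have hh0 : (1 : ℝ) ≤ hf n := by exact_mod_cast hh1
  set s : ℝ := 1 - 1 / (hf n : ℝ) with hs
  have hs0 : 0 ≤ s := by
    rw [hs, sub_nonneg, div_le_one (by linarith)]; exact hh0
  have hs1 : s ≤ 1 := by
    rw [hs]; have : 0 ≤ 1 / (hf n : ℝ) := by positivity
    linarith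
  set y : ℝ := δ / (16 * n) with hy
  have hy0 : 0 ≤ y := by positivity
  -- the ratio
  have h4 := hn0 (4 * n) (by omega)
  have hD4 := one_le_discUpTo hS (n := 4 * n) (by omega)
  have h5 : 2 * (1 + y) ≤ 1 + 2 / discUpTo S (4 * n) := by
    have h6 : δ / ((4 * n : ℕ) : ℝ) = 4 * y := by
      rw [hy]; push_cast; field_simp; norm_num
    rw [h6] at h4
    have h7 : 1 + 2 * y ≤ 2 / discUpTo S (4 * n) := by
      rw [le_div_iff₀ (by linarith)]
      have : (1 + 2 * y) * discUpTo S (4 * n) ≤ (1 + 2 * y) * (2 - 4 * y) :=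
        mul_le_mul_of_nonneg_left h4 (by linarith)
      nlinarith
    linarith
  have h6 : (2 * (1 + y)) ^ (hf n - 1) ≤ discUpTo S n ^ hf n :=
    (pow_le_pow_left₀ (by linarith) h5 _).trans (tradeoff hS hn1)
  have h7 := lower_root hh1 (by linarith) (by linarith [one_le_discUpTo hS hn1]) h6
  rw [← hs, Real.mul_rpow (by norm_num) (by linarith)] at h7
  have h8 := rpow_lower hy0 hs0 hs1
  have h2s : 0 < (2 : ℝ) ^ s := by positivity
  have h9 : (2 : ℝ) ^ s * (1 + s * y / (1 + (1 - s) * y)) ≤ discUpTo S n :=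
    (mul_le_mul_of_nonneg_left h8 h2s.le).trans h7
  rw [discMin_eq hn1, ← hs]
  have h10 : (2 : ℝ) ^ s * (s * y / (1 + (1 - s) * y)) ≤ discUpTo S n - (2 : ℝ) ^ s := by linarith
  have h11 := mul_le_mul_of_nonneg_left h10 hnpos.le
  refine le_trans (le_of_eq ?_) h11
  have h12 : s * y = (s * (δ / 16)) / n := by rw [hy]; field_simp
  have h13 : (0:ℝ) < 1 + (1 - s) * y := by
    have := mul_nonneg (sub_nonneg.2 hs1) hy0
    linarith
  rw [h12]
  field_simp

/-- `n (disc_n(S) - disc(n))` -/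
noncomputable def excess (S : ℕ → List ℝ) (n : ℕ) : ℝ := n * (discUpTo S n - discMin n)

/-- The quantity `liminf n (disc_n(S) - disc(n))` of the problem, in `[-∞, ∞]`. -/
noncomputable def liminfExcess (S : ℕ → List ℝ) : EReal :=
  liminf (fun n : ℕ => ((excess S n : ℝ) : EReal)) atTop

/-- The quantity `limsup n (disc_n(S) - disc(n))`, in `[-∞, ∞]`. -/
noncomputable def limsupExcess (S : ℕ → List ℝ) : EReal :=
  limsup (fun n : ℕ => ((excess S n : ℝ) : EReal)) atTop

lemma liminf_lower {S : ℕ → List ℝ} (hS : IsInfiniteStrategy S) {δ : ℝ} (hδ : 0 < δ)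
    (h : ∀ᶠ n : ℕ in atTop, discUpTo S n ≤ 2 - δ / n) : ((δ / 8 : ℝ) : EReal) ≤ liminfExcess S := by
  apply le_of_forall_lt
  intro c hc
  obtain ⟨η, h1, h2⟩ := EReal.lt_iff_exists_real_btwn.1 hc
  refine h1.trans_le ?_
  apply le_liminf_of_le
  · isBoundedDefault
  · filter_upwards [order_optimal hS hδ h (EReal.coe_lt_coe_iff.1 h2)] with n hn
    exact EReal.coe_le_coe_iff.2 hn.le

lemma limsup_lower {S : ℕ → List ℝ} (hS : IsInfiniteStrategy S) :
    ((4 / 9 * Real.log 2 : ℝ) : EReal) ≤ limsupExcess S := by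
  by_contra hcon
  push Not at hcon
  obtain ⟨η, h1, h2⟩ := EReal.lt_iff_exists_real_btwn.1 hcon
  have h2 := EReal.coe_lt_coe_iff.1 h2
  have h3 : ∀ᶠ n : ℕ in atTop, ((excess S n : ℝ) : EReal) < η :=
    eventually_lt_of_limsup_lt h1 (by isBoundedDefault)
  have hlog := Real.log_pos (show (1:ℝ) < 2 by norm_num)
  -- a number between `9 η` and `4 log 2`
  obtain ⟨γ, hγ1, hγ2⟩ := exists_between (show max (9 * η) η < 4 * Real.log 2 by
    rw [max_lt_iff]; constructor <;> linarith)
  have hγ3 : 9 * η < γ := (le_max_left _ _).trans_lt hγ1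
  have hγ4 : η < γ := (le_max_right _ _).trans_lt hγ1
  have h4 : ∀ᶠ n : ℕ in atTop, discUpTo S n ≤ 2 - (γ - η) / n := by
    filter_upwards [h3, tendsto_four.eventually (lt_mem_nhds hγ2), eventually_ge_atTop 1]
      with n hn1 hn2 hn3
    have hn1 := EReal.coe_lt_coe_iff.1 hn1
    have hn0 : (0 : ℝ) < n := by exact_mod_cast hn3
    unfold excess at hn1
    rw [discMin_eq hn3] at hn1
    rw [le_sub_iff_add_le, ← le_sub_iff_add_le', div_le_iff₀ hn0]
    nlinarith
  have h5 := order_optimal hS (sub_pos.2 hγ4) h4 (η := η) (by linarith)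
  obtain ⟨n, hn1, hn2⟩ := (h3.and h5).exists
  have hn1 := EReal.coe_lt_coe_iff.1 hn1
  unfold excess at hn1
  linarith

/-- **Q1 for the infinite strategies of the optimal order, and with `limsup` for all of them.**
(1) For every infinite strategy `S` and every `n ≥ 1`, with `h = ⌈n/2⌉`:
`(1 + 2 / disc_{4n}(S)) ^ (h - 1) ≤ disc_n(S) ^ h`. (For strategies of length `n` only
`2 ^ (h - 1) ≤ disc_n(S) ^ h` is true; this is sharp, and `disc(n) = 2 ^ (1 - 1/h)`.)
(2) If `disc_n(S) ≤ 2 - δ / n` for all large `n`, `δ > 0`, then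
`liminf n (disc_n(S) - disc(n)) ≥ δ / 8 > 0`.
(3) For every infinite strategy `limsup n (disc_n(S) - disc(n)) ≥ (4/9) log 2 > 0`. -/
theorem result :
    (∀ S : ℕ → List ℝ, IsInfiniteStrategy S → ∀ n : ℕ, 1 ≤ n →
      (1 + 2 / discUpTo S (4 * n)) ^ ((n + 1) / 2 - 1) ≤ discUpTo S n ^ ((n + 1) / 2)) ∧
    (∀ n : ℕ, 1 ≤ n → discMin n = (2 : ℝ) ^ (1 - 1 / (((n + 1) / 2 : ℕ) : ℝ))) ∧
    (∀ S : ℕ → List ℝ, IsInfiniteStrategy S → ∀ δ : ℝ, 0 < δ →
      (∀ᶠ n : ℕ in atTop, discUpTo S n ≤ 2 - δ / n) →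
      ((δ / 8 : ℝ) : EReal) ≤ liminfExcess S) ∧
    (∀ S : ℕ → List ℝ, IsInfiniteStrategy S →
      ((4 / 9 * Real.log 2 : ℝ) : EReal) ≤ limsupExcess S) :=
  ⟨fun _ hS _ hn => tradeoff hS hn, fun _ hn => discMin_eq hn,
    fun _ hS _ hδ h => liminf_lower hS hδ h, fun _ hS => limsup_lower hS⟩

end Pool.Agent.Results.MP_eb524a_co.OrderOptimalStrategies
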